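import Pool.Agent.Lib.MP_1446ad_nt.EX.All

/-!
# Sums of two smooth numbers: few exceptions for every exponent
-/

set_option autoImplicit false

namespace Pool.Agent.Results.MP_1446ad_nt.FewExceptions

/-- For all `ε, δ > 0` there is `C` such that for all `N ≥ 1` at most
`C N^(max(0, 1 - 2 √e ε) + δ)` of the integers `n`, `2 ≤ n ≤ N`, are not sums of two positive integers
all of whose prime factors are at most `N^ε`. -/
theorem result :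
    ∀ ε δ : ℝ, 0 < ε → 0 < δ → ∃ C : ℝ, ∀ N : ℕ, 1 ≤ N →
      ({n : ℕ | 2 ≤ n ∧ n ≤ N ∧ ¬ ∃ a b : ℕ, 0 < a ∧ 0 < b ∧ a + b = n ∧
        (∀ p : ℕ, p.Prime → p ∣ a → (p : ℝ) ≤ (N : ℝ) ^ ε) ∧
        (∀ p : ℕ, p.Prime → p ∣ b → (p : ℝ) ≤ (N : ℝ) ^ ε)}.ncard : ℝ) ≤
      C * (N : ℝ) ^ (max 0 (1 - 2 * √(Real.exp 1) * ε) + δ) := by
  classical
  intro ε δ hε hδ
  obtain ⟨C, hC⟩ := Pool.Agent.Lib.MP_1446ad_nt.EX.allFNX ε δ hε hδ
  refine ⟨C, fun N hN => ?_⟩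
  refine le_trans (le_of_eq ?_) (hC N hN)
  rw [← Set.ncard_coe_finset]
  congr 2
  ext n
  simp only [Set.mem_setOf_eq, Finset.coe_filter, Finset.mem_Icc, Pool.Agent.Lib.MP_1446ad_nt.EX.Rep,
    and_assoc]

end Pool.Agent.Results.MP_1446ad_nt.FewExceptions
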