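import Pool.Agent.Lib.MP_1446ad_nt.SM.All

/-!
# Sums of two smooth numbers

Every large integer is a sum of two smooth numbers, with the exponent `3/(7 √e) = 0.25994..`
(Balog 1989: `4/(9 √e) = 0.2695..`).
-/

set_option autoImplicit false

namespace Pool.Agent.Results.MP_1446ad_nt.TwoSmooth

/-- For every `ε > 3/(7 √e)` there is `N₀` such that for all `N ≥ N₀` every `n` with `2 ≤ n ≤ N` is a sum
of two positive integers all of whose prime factors are at most `N^ε`. -/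
theorem result :
    ∀ ε : ℝ, 3 / (7 * √(Real.exp 1)) < ε → ∃ N₀ : ℕ, ∀ N : ℕ, N₀ ≤ N → ∀ n : ℕ, 2 ≤ n → n ≤ N →
      ∃ a b : ℕ, 0 < a ∧ 0 < b ∧ a + b = n ∧
        (∀ p : ℕ, p.Prime → p ∣ a → (p : ℝ) ≤ (N : ℝ) ^ ε) ∧
        (∀ p : ℕ, p.Prime → p ∣ b → (p : ℝ) ≤ (N : ℝ) ^ ε) :=
  Pool.Agent.Lib.MP_1446ad_nt.SM.allTHB

end Pool.Agent.Results.MP_1446ad_nt.TwoSmooth
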